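import Pool.Agent.NRY.Targets
import Pool.Agent.NRW.Final

/-!
# The number of reconstructions: all parts, with the random flips
-/

set_option autoImplicit false

open Finset Classical

namespace Pool.Agent.NRY

open Pool.Agent

theorem df_eq {V : Type} [Fintype V] (G H : SimpleGraph V) :
    (symmDiff G.edgeSet H.edgeSet).ncard = df G H := by
  unfold df
  rw [← Set.ncard_coe_finset]
  congr 1
  ext e
  simp only [Set.mem_symmDiff, coe_filter, mem_univ, true_and, Set.mem_ofPred_eq]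
  tauto

theorem all_six (h_UFN : NRU.T_UFN) (h_SMO : NRV.T_SMO) (h_LFT : NRW.T_LFT)
    (h_FLP : T_FLP) : ∃ C : ℝ, 0 < C ∧
    (∀ n t : ℕ, 3 ≤ n → ∀ (F : Fin t → SimpleGraph (Fin (n - 1))) (ι : Type) [Fintype ι]
      (H : ι → SimpleGraph (Fin n)),
      (∀ i, ¬ HER47.Rec (H i)) →
      (∀ i, ∀ v : Fin n, ∃ j : Fin t,
        Nonempty ({s : Finset (Fin n) // s.Nonempty ∧ (H i).IsClique (s : Set (Fin n)) ∧ v ∉ s} ≃o
          {s : Finset (Fin (n - 1)) // s.Nonempty ∧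
            (F j).IsClique (s : Set (Fin (n - 1)))})) →
      (∀ i j, i ≠ j →
        ¬ Nonempty ({s : Finset (Fin n) // s.Nonempty ∧ (H i).IsClique (s : Set (Fin n))} ≃o
          {s : Finset (Fin n) // s.Nonempty ∧ (H j).IsClique (s : Set (Fin n))})) →
      (Fintype.card ι : ℝ) ≤ t * (n : ℝ) ^ C) ∧
    (∀ (V : Type) [Fintype V] (G : SimpleGraph V), 3 ≤ Fintype.card V → ∀ m : ℝ,
      (C ≤ m ∨
      (∃ D : ℕ, 16 * (Real.logb 2 D) ^ 2 ≤ m ∧
        ((∀ v, (G.neighborSet v).ncard ≤ D) ∨ ∀ v, (Gᶜ.neighborSet v).ncard ≤ D)) ∨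
      (1 ≤ m ∧ ∃ u v, u ≠ v ∧
        ({w : V | w ≠ u ∧ w ≠ v ∧ ¬ (G.Adj w u ↔ G.Adj w v)}.ncard : ℝ) ≤ m)) →
      ∀ (ι : Type) [Fintype ι] (W : ι → Type) [∀ i, Fintype (W i)] (H : ∀ i, SimpleGraph (W i))
      (f : ∀ i, V ≃ W i),
      (∀ i, ∀ v : V,
        Nonempty ({s : Finset V // s.Nonempty ∧ G.IsClique (s : Set V) ∧ v ∉ s} ≃o
          {t : Finset (W i) // t.Nonempty ∧ (H i).IsClique (t : Set (W i)) ∧ f i v ∉ t})) →
      (∀ i j, i ≠ j →
        ¬ Nonempty ({s : Finset (W i) // s.Nonempty ∧ (H i).IsClique (s : Set (W i))} ≃o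
          {t : Finset (W j) // t.Nonempty ∧ (H j).IsClique (t : Set (W j))})) →
      (Fintype.card ι : ℝ) ≤ (Fintype.card V : ℝ) ^ (m + 3)) ∧
    (∀ (V : Type) [Fintype V] (G : SimpleGraph V), 3 ≤ Fintype.card V →
      ((∃ D : ℕ, 2 ≤ D ∧
        ((∀ v, (G.neighborSet v).ncard ≤ D) ∨ ∀ v, (Gᶜ.neighborSet v).ncard ≤ D) ∧
        ∀ u v, u ≠ v → C * Real.logb 2 D ≤
          ({w : V | w ≠ u ∧ w ≠ v ∧ ¬ (G.Adj w u ↔ G.Adj w v)}.ncard : ℝ)) ∨
      (∃ Y : Finset V, C * Real.logb 2 (Fintype.card V) * Y.card ≤ Fintype.card V ∧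
        ∀ u v, u ∉ Y → v ∉ Y → u ≠ v → C * Real.logb 2 (Fintype.card V) ≤
          ({w : V | w ≠ u ∧ w ≠ v ∧ ¬ (G.Adj w u ↔ G.Adj w v)}.ncard : ℝ))) →
      HER47.Rec G) ∧
    (∀ (V : Type) [Fintype V] (G : SimpleGraph V) (k : ℕ), 3 ≤ Fintype.card V →
      C * Fintype.card V * Real.logb 2 (Fintype.card V) ≤ k →
      C * Fintype.card V * Real.logb 2 (Fintype.card V) ≤
        (Fintype.card V : ℝ) * (Fintype.card V - 1) / 2 - k →
      (Fintype.card V : ℝ) * {H : SimpleGraph V | (symmDiff G.edgeSet H.edgeSet).ncard = k ∧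
          ¬ HER47.Rec H}.ncard ≤
        {H : SimpleGraph V | (symmDiff G.edgeSet H.edgeSet).ncard = k}.ncard) ∧
    (∀ (V : Type) [Fintype V] (H : SimpleGraph V) (S : Finset V), 3 ≤ Fintype.card V →
      C * Real.logb 2 (Fintype.card V) ≤ S.card →
      ({G : SimpleGraph V | (∀ x y, x ∉ S → y ∉ S → (G.Adj x y ↔ H.Adj x y)) ∧
          ¬ HER47.Rec G}.ncard : ℝ) ≤ (2 : ℝ) ^ (-(S.card : ℝ) / 2) *
        {G : SimpleGraph V | ∀ x y, x ∉ S → y ∉ S → (G.Adj x y ↔ H.Adj x y)}.ncard) := by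
  obtain ⟨C1, hC1, h1, h2, h3, h4⟩ := NRW.all_five h_UFN h_SMO h_LFT
  obtain ⟨C2, hC2, h5⟩ := h_FLP
  refine ⟨C1 + C2, by positivity, ?_, ?_, ?_, ?_, ?_⟩
  · intro n t hn F ι _ H hrec hlist hne
    refine (h1 n t hn F ι H hrec hlist hne).trans
      (mul_le_mul_of_nonneg_left ?_ (Nat.cast_nonneg _))
    refine Real.rpow_le_rpow_of_exponent_le ?_ (by linarith)
    exact_mod_cast (by omega : 1 ≤ n)
  · intro V _ G hn m hm
    refine h2 V G hn m ?_
    rcases hm with hm | hm | hm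
    · left
      linarith
    · exact Or.inr (Or.inl hm)
    · exact Or.inr (Or.inr hm)
  · intro V _ G hn hG
    have hnR : (3 : ℝ) ≤ Fintype.card V := by exact_mod_cast hn
    have hlog : 0 ≤ Real.logb 2 (Fintype.card V) := Real.logb_nonneg (by norm_num) (by linarith)
    have hCl : C1 * Real.logb 2 (Fintype.card V) ≤ (C1 + C2) * Real.logb 2 (Fintype.card V) :=
      mul_le_mul_of_nonneg_right (by linarith) hlog
    refine h3 V G hn ?_
    rcases hG with ⟨D, hD, hdeg, hd⟩ | ⟨Y, hY, hd⟩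
    · left
      have hDR : (2 : ℝ) ≤ D := by exact_mod_cast hD
      have hlogD : 0 ≤ Real.logb 2 D := Real.logb_nonneg (by norm_num) (by linarith)
      refine ⟨D, hD, hdeg, fun u v huv => le_trans ?_ (hd u v huv)⟩
      exact mul_le_mul_of_nonneg_right (by linarith) hlogD
    · right
      refine ⟨Y, ?_, fun u v hu hv huv => hCl.trans (hd u v hu hv huv)⟩
      exact le_trans (mul_le_mul_of_nonneg_right hCl (Nat.cast_nonneg _)) hY
  · intro V _ G k hn hk1 hk2
    have hnR : (3 : ℝ) ≤ Fintype.card V := by exact_mod_cast hn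
    have hlog : 0 ≤ Real.logb 2 (Fintype.card V) := Real.logb_nonneg (by norm_num) (by linarith)
    have hCl : C2 * Fintype.card V * Real.logb 2 (Fintype.card V) ≤
        (C1 + C2) * Fintype.card V * Real.logb 2 (Fintype.card V) := by
      refine mul_le_mul_of_nonneg_right ?_ hlog
      nlinarith
    have h6 := h5 V G k hn (hCl.trans hk1) (by
      rw [Nat.cast_choose_two]
      exact hCl.trans hk2)
    have e1 : {H : SimpleGraph V | (symmDiff G.edgeSet H.edgeSet).ncard = k ∧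
        ¬ HER47.Rec H}.ncard =
        (univ.filter (fun H : SimpleGraph V => df G H = k ∧ ¬ HER47.Rec H)).card := by
      rw [← Set.ncard_coe_finset]
      congr 1
      ext H
      simp [df_eq]
    have e2 : {H : SimpleGraph V | (symmDiff G.edgeSet H.edgeSet).ncard = k}.ncard =
        (univ.filter (fun H : SimpleGraph V => df G H = k)).card := by
      rw [← Set.ncard_coe_finset]
      congr 1
      ext H
      simp [df_eq]
    rw [e1, e2]
    exact h6
  · intro V _ H S hn hS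
    have hnR : (3 : ℝ) ≤ Fintype.card V := by exact_mod_cast hn
    have hlog : 0 ≤ Real.logb 2 (Fintype.card V) := Real.logb_nonneg (by norm_num) (by linarith)
    have hCl : C1 * Real.logb 2 (Fintype.card V) ≤ (C1 + C2) * Real.logb 2 (Fintype.card V) :=
      mul_le_mul_of_nonneg_right (by linarith) hlog
    exact h4 V H S hn (hCl.trans hS)

end Pool.Agent.NRY
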