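import Pool.Agent.NRY.Targets

/-!
# CNK: the number of graphs which differ from a given graph in exactly `k` pairs
-/

set_option autoImplicit false

open Finset Classical

namespace Pool.Agent.NRY

open Pool.Agent Pool.Agent.Lib.Recon Pool.Agent.RNB Pool.Agent.NRC

namespace CNK_

/-- the set of the pairs in which `G` and `H` differ -/
noncomputable def D {V : Type} [Fintype V] (G H : SimpleGraph V) : Finset (Sym2 V) :=
  univ.filter (fun e : Sym2 V => ¬ (e ∈ G.edgeSet ↔ e ∈ H.edgeSet))

/-- the graph which differs from `G` exactly in the pairs of `E` -/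
def J {V : Type} (G : SimpleGraph V) (E : Finset (Sym2 V)) : SimpleGraph V :=
  SimpleGraph.fromEdgeSet {e : Sym2 V | ¬ (e ∈ G.edgeSet ↔ e ∈ E)}

lemma mem_D {V : Type} [Fintype V] (G H : SimpleGraph V) (e : Sym2 V) :
    e ∈ D G H ↔ ¬ (e ∈ G.edgeSet ↔ e ∈ H.edgeSet) := by
  simp [D]

lemma mem_J {V : Type} (G : SimpleGraph V) (E : Finset (Sym2 V)) (e : Sym2 V) :
    e ∈ (J G E).edgeSet ↔ (¬ (e ∈ G.edgeSet ↔ e ∈ E)) ∧ ¬ e.IsDiag := by
  unfold J
  rw [SimpleGraph.edgeSet_fromEdgeSet]
  simp

lemma nd {V : Type} (G : SimpleGraph V) (e : Sym2 V) (h : e ∈ G.edgeSet) : ¬ e.IsDiag :=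
  G.not_isDiag_of_mem_edgeSet h

lemma J_D {V : Type} [Fintype V] (G H : SimpleGraph V) : J G (D G H) = H := by
  apply SimpleGraph.edgeSet_injective
  ext e
  rw [mem_J, mem_D]
  have h1 := nd G e
  have h2 := nd H e
  tauto

lemma D_J {V : Type} [Fintype V] (G : SimpleGraph V) (E : Finset (Sym2 V))
    (hE : ∀ e ∈ E, ¬ e.IsDiag) : D G (J G E) = E := by
  ext e
  rw [mem_D, mem_J]
  have h1 := nd G e
  have h2 := hE e
  tauto

end CNK_

open CNK_ in
theorem p_CNK : T_CNK := by
  intro V _ G k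
  have hT : ((⊤ : SimpleGraph V).edgeFinset).card = (Fintype.card V).choose 2 :=
    SimpleGraph.card_edgeFinset_top_eq_card_choose_two
  rw [← hT, ← Finset.card_powersetCard]
  refine Finset.card_bij' (fun H _ => D G H) (fun E _ => J G E) ?_ ?_ ?_ ?_
  · intro H hH
    rw [mem_filter] at hH
    rw [mem_powersetCard]
    refine ⟨?_, hH.2⟩
    intro e he
    rw [mem_D] at he
    rw [SimpleGraph.mem_edgeFinset]
    have h1 := nd G e
    have h2 := nd H e
    have h3 : ¬ e.IsDiag := by tauto
    simpa using h3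
  · intro E hE
    rw [mem_powersetCard] at hE
    rw [mem_filter]
    refine ⟨mem_univ _, ?_⟩
    have h0 : D G (J G E) = E := D_J G E (fun e he => by
      have h1 := hE.1 he
      rw [SimpleGraph.mem_edgeFinset] at h1
      exact nd _ e h1)
    have h2 : df G (J G E) = (D G (J G E)).card := rfl
    rw [h2, h0, hE.2]
  · intro H _
    exact J_D G H
  · intro E hE
    rw [mem_powersetCard] at hE
    exact D_J G E (fun e he => by
      have h1 := hE.1 he
      rw [SimpleGraph.mem_edgeFinset] at h1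
      exact nd _ e h1)

end Pool.Agent.NRY
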