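import Pool.Agent.NRY.Targets
import Pool.Agent.NRV.P_TOG

/-!
# NRY-EXM: the expectation of `2 ^ (- differences)` under random flips, by toggling two pairs
-/

set_option autoImplicit false

open Finset Classical

namespace Pool.Agent.NRY

open Pool.Agent Pool.Agent.Lib.Recon Pool.Agent.RNB Pool.Agent.NRC

namespace EXM_

open Pool.Agent.NRV.TOG_

variable {V : Type} [Fintype V]

/-- the pairs in which `G` and `H` differ -/
noncomputable def DD (G H : SimpleGraph V) : Finset (Sym2 V) :=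
  univ.filter (fun e : Sym2 V => ¬ (e ∈ G.edgeSet ↔ e ∈ H.edgeSet))

theorem mem_DD (G H : SimpleGraph V) (e : Sym2 V) :
    e ∈ DD G H ↔ ¬ (e ∈ G.edgeSet ↔ e ∈ H.edgeSet) := by
  simp only [DD, mem_filter, mem_univ, true_and]

theorem mem_DD' (G H : SimpleGraph V) (x y : V) :
    s(x, y) ∈ DD G H ↔ ¬ (G.Adj x y ↔ H.Adj x y) := by
  rw [mem_DD, SimpleGraph.mem_edgeSet, SimpleGraph.mem_edgeSet]

theorem PP_sing (u w x y : V) (hwu : w ≠ u) : PP u {w} x y ↔ s(x, y) = s(w, u) := by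
  unfold PP
  rw [Sym2.eq_iff]
  constructor
  · rintro (⟨h1, h2, h3⟩ | ⟨h1, h2, h3⟩)
    · exact Or.inr ⟨h1, mem_singleton.1 h3⟩
    · exact Or.inl ⟨mem_singleton.1 h3, h1⟩
  · rintro (⟨h1, h2⟩ | ⟨h1, h2⟩)
    · exact Or.inr ⟨h2, h1 ▸ hwu, mem_singleton.2 h1⟩
    · exact Or.inl ⟨h1, h2 ▸ hwu, mem_singleton.2 h2⟩

theorem tog_adj_ne (u w x y : V) (hwu : w ≠ u) (H : SimpleGraph V) (h : s(x, y) ≠ s(w, u)) :
    (tog u {w} H).Adj x y ↔ H.Adj x y := by
  rw [tog_adj]
  have := (PP_sing u w x y hwu).not.2 h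
  tauto

theorem tog_adj_self (u w : V) (hwu : w ≠ u) (H : SimpleGraph V) :
    (tog u {w} H).Adj w u ↔ ¬ H.Adj w u := by
  rw [tog_adj]
  have := (PP_sing u w w u hwu).2 rfl
  tauto

theorem DD_tog (u w : V) (hwu : w ≠ u) (G H : SimpleGraph V) (e : Sym2 V) (he : e ≠ s(w, u)) :
    e ∈ DD G (tog u {w} H) ↔ e ∈ DD G H := by
  induction e using Sym2.ind with
  | _ x y =>
    rw [mem_DD', mem_DD', tog_adj_ne u w x y hwu H he]

/-- the number of the differences other than `w u`, `w v` -/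
noncomputable def rest (G H : SimpleGraph V) (w u v : V) : ℕ :=
  (((DD G H).erase s(w, u)).erase s(w, v)).card

theorem df_eq (G H : SimpleGraph V) (w u v : V) (hwu : w ≠ u) (huv : u ≠ v) :
    df G H = rest G H w u v + (if G.Adj w u ↔ H.Adj w u then 0 else 1) +
      (if G.Adj w v ↔ H.Adj w v then 0 else 1) := by
  have hne : s(w, v) ≠ s(w, u) := by
    rw [Ne, Sym2.eq_iff]
    rintro (⟨-, h⟩ | ⟨h, -⟩)
    · exact huv h.symm
    · exact hwu h
  have h0 : df G H = (DD G H).card := rfl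
  have h1 : (DD G H).card = ((DD G H).erase s(w, u)).card +
      (if G.Adj w u ↔ H.Adj w u then 0 else 1) := by
    by_cases h : s(w, u) ∈ DD G H
    · rw [if_neg ((mem_DD' G H w u).1 h), card_erase_add_one h]
    · rw [if_pos (not_not.1 (mt (mem_DD' G H w u).2 h)), erase_eq_of_notMem h, add_zero]
  have h2 : ((DD G H).erase s(w, u)).card = rest G H w u v +
      (if G.Adj w v ↔ H.Adj w v then 0 else 1) := by
    unfold rest
    by_cases h : s(w, v) ∈ DD G H
    · rw [if_neg ((mem_DD' G H w v).1 h), card_erase_add_one (mem_erase.2 ⟨hne, h⟩)]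
    · rw [if_pos (not_not.1 (mt (mem_DD' G H w v).2 h)),
        erase_eq_of_notMem (fun h' => h (mem_erase.1 h').2), add_zero]
  rw [h0, h1, h2]
  ring

theorem rest_le (G H : SimpleGraph V) (w u v : V) (hwu : w ≠ u) (hwv : w ≠ v) (huv : u ≠ v) :
    rest G H w u v + 2 ≤ (Fintype.card V).choose 2 := by
  have hne : s(w, v) ≠ s(w, u) := by
    rw [Ne, Sym2.eq_iff]
    rintro (⟨-, h⟩ | ⟨h, -⟩)
    · exact huv h.symm
    · exact hwu h
  rw [← SimpleGraph.card_edgeFinset_top_eq_card_choose_two (V := V)]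
  have hu : s(w, u) ∈ (⊤ : SimpleGraph V).edgeFinset := by
    rw [SimpleGraph.mem_edgeFinset, SimpleGraph.mem_edgeSet, SimpleGraph.top_adj]
    exact hwu
  have hv : s(w, v) ∈ ((⊤ : SimpleGraph V).edgeFinset).erase s(w, u) := by
    rw [mem_erase, SimpleGraph.mem_edgeFinset, SimpleGraph.mem_edgeSet, SimpleGraph.top_adj]
    exact ⟨hne, hwv⟩
  rw [← card_erase_add_one hu, ← card_erase_add_one hv]
  have hsub : ((DD G H).erase s(w, u)).erase s(w, v) ⊆
      (((⊤ : SimpleGraph V).edgeFinset).erase s(w, u)).erase s(w, v) := by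
    apply erase_subset_erase
    apply erase_subset_erase
    intro e he
    induction e using Sym2.ind with
    | _ x y =>
      rw [mem_DD'] at he
      rw [SimpleGraph.mem_edgeFinset, SimpleGraph.mem_edgeSet, SimpleGraph.top_adj]
      rintro rfl
      exact he (iff_of_false G.irrefl H.irrefl)
  have := card_le_card hsub
  unfold rest
  omega

theorem rest_tog1 (G H : SimpleGraph V) (w u v : V) (hwu : w ≠ u) :
    rest G (tog u {w} H) w u v = rest G H w u v := by
  unfold rest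
  congr 1
  ext e
  rw [mem_erase, mem_erase, mem_erase, mem_erase]
  by_cases he : e = s(w, u)
  · simp [he]
  · rw [DD_tog u w hwu G H e he]

theorem rest_tog2 (G H : SimpleGraph V) (w u v : V) (hwv : w ≠ v) :
    rest G (tog v {w} H) w u v = rest G H w u v := by
  unfold rest
  congr 1
  ext e
  rw [mem_erase, mem_erase, mem_erase, mem_erase]
  by_cases he : e = s(w, v)
  · simp [he]
  · rw [DD_tog v w hwv G H e he]

/-- the common factor of the four weights -/
noncomputable def cc (G H : SimpleGraph V) (p : ℝ) (w u v : V) : ℝ :=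
  p ^ (rest G H w u v) * (1 - p) ^ ((Fintype.card V).choose 2 - 2 - rest G H w u v)

theorem wt_eq (G H : SimpleGraph V) (p : ℝ) (w u v : V) (hwu : w ≠ u) (hwv : w ≠ v)
    (huv : u ≠ v) : wt G p H = cc G H p w u v * (if G.Adj w u ↔ H.Adj w u then 1 - p else p) *
      (if G.Adj w v ↔ H.Adj w v then 1 - p else p) := by
  have h1 := df_eq G H w u v hwu huv
  have h2 := rest_le G H w u v hwu hwv huv
  unfold wt cc
  rw [h1]
  obtain ⟨s, hs⟩ := Nat.exists_eq_add_of_le h2
  rw [hs]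
  have e0 : rest G H w u v + 2 + s - 2 - rest G H w u v = s := by omega
  rw [e0]
  by_cases a : (G.Adj w u ↔ H.Adj w u) <;> by_cases b : (G.Adj w v ↔ H.Adj w v)
  · rw [if_pos a, if_pos b, if_pos a, if_pos b]
    have e1 : rest G H w u v + 2 + s - (rest G H w u v + 0 + 0) = s + 2 := by omega
    rw [e1]
    ring
  · rw [if_pos a, if_neg b, if_pos a, if_neg b]
    have e1 : rest G H w u v + 2 + s - (rest G H w u v + 0 + 1) = s + 1 := by omega
    rw [e1]
    ring
  · rw [if_neg a, if_pos b, if_neg a, if_pos b]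
    have e1 : rest G H w u v + 2 + s - (rest G H w u v + 1 + 0) = s + 1 := by omega
    rw [e1]
    ring
  · rw [if_neg a, if_neg b, if_neg a, if_neg b]
    have e1 : rest G H w u v + 2 + s - (rest G H w u v + 1 + 1) = s := by omega
    rw [e1]
    ring

theorem cc_tog1 (G H : SimpleGraph V) (p : ℝ) (w u v : V) (hwu : w ≠ u) :
    cc G (tog u {w} H) p w u v = cc G H p w u v := by
  unfold cc
  rw [rest_tog1 G H w u v hwu]

theorem cc_tog2 (G H : SimpleGraph V) (p : ℝ) (w u v : V) (hwv : w ≠ v) :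
    cc G (tog v {w} H) p w u v = cc G H p w u v := by
  unfold cc
  rw [rest_tog2 G H w u v hwv]

theorem cc_nonneg (G H : SimpleGraph V) (p : ℝ) (w u v : V) (h0 : 0 ≤ p) (h1 : p ≤ 1) :
    0 ≤ cc G H p w u v := by
  unfold cc
  have : 0 ≤ 1 - p := by linarith
  positivity

theorem sum_tog (u w : V) (F : SimpleGraph V → ℝ) :
    ∑ H : SimpleGraph V, F (tog u {w} H) = ∑ H : SimpleGraph V, F H :=
  Equiv.sum_comp (Function.Involutive.toPerm (tog u {w}) (tog_tog u {w})) F

theorem dset_tog1 (H : SimpleGraph V) (w u v : V) (W : Finset V) (hwu : w ≠ u) (huv : u ≠ v)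
    (hw : w ∉ W) (hu : u ∉ W) (hv : v ∉ W) :
    dset (tog u {w} H) u v ∩ W = dset H u v ∩ W := by
  ext x
  rw [mem_inter, mem_inter]
  by_cases hx : x ∈ W
  · have hxw : x ≠ w := fun h => hw (h ▸ hx)
    have hxu : x ≠ u := fun h => hu (h ▸ hx)
    have hxv : x ≠ v := fun h => hv (h ▸ hx)
    have h1 : s(x, u) ≠ s(w, u) := by
      rw [Ne, Sym2.eq_iff]
      rintro (⟨h, -⟩ | ⟨h, -⟩)
      · exact hxw h
      · exact hxu h
    have h2 : s(x, v) ≠ s(w, u) := by
      rw [Ne, Sym2.eq_iff]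
      rintro (⟨h, -⟩ | ⟨h, -⟩)
      · exact hxw h
      · exact hxu h
    rw [NRV.TOG_.mem_dset, NRV.TOG_.mem_dset, tog_adj_ne u w x u hwu H h1,
      tog_adj_ne u w x v hwu H h2]
  · simp only [hx, and_false]

theorem dset_tog2 (H : SimpleGraph V) (w u v : V) (W : Finset V) (hwv : w ≠ v) (huv : u ≠ v)
    (hw : w ∉ W) (hu : u ∉ W) (hv : v ∉ W) :
    dset (tog v {w} H) u v ∩ W = dset H u v ∩ W := by
  ext x
  rw [mem_inter, mem_inter]
  by_cases hx : x ∈ W
  · have hxw : x ≠ w := fun h => hw (h ▸ hx)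
    have hxu : x ≠ u := fun h => hu (h ▸ hx)
    have hxv : x ≠ v := fun h => hv (h ▸ hx)
    have h1 : s(x, u) ≠ s(w, v) := by
      rw [Ne, Sym2.eq_iff]
      rintro (⟨h, -⟩ | ⟨h, -⟩)
      · exact hxw h
      · exact hxv h
    have h2 : s(x, v) ≠ s(w, v) := by
      rw [Ne, Sym2.eq_iff]
      rintro (⟨h, -⟩ | ⟨h, -⟩)
      · exact hxw h
      · exact hxv h
    rw [NRV.TOG_.mem_dset, NRV.TOG_.mem_dset, tog_adj_ne v w x u hwv H h1,
      tog_adj_ne v w x v hwv H h2]
  · simp only [hx, and_false]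

theorem card_insert_dset (H : SimpleGraph V) (w u v : V) (W : Finset V) (hwu : w ≠ u)
    (hwv : w ≠ v) (hw : w ∉ W) :
    (dset H u v ∩ insert w W).card =
      (dset H u v ∩ W).card + (if H.Adj w u ↔ H.Adj w v then 0 else 1) := by
  by_cases h : H.Adj w u ↔ H.Adj w v
  · rw [if_pos h, add_zero]
    congr 1
    ext x
    rw [mem_inter, mem_inter, mem_insert]
    constructor
    · rintro ⟨h1, rfl | h2⟩
      · exact absurd h ((NRV.TOG_.mem_dset H u v x).1 h1).2.2
      · exact ⟨h1, h2⟩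
    · rintro ⟨h1, h2⟩
      exact ⟨h1, Or.inr h2⟩
  · rw [if_neg h]
    have hm : w ∈ dset H u v := (NRV.TOG_.mem_dset H u v w).2 ⟨hwu, hwv, h⟩
    have : dset H u v ∩ insert w W = insert w (dset H u v ∩ W) := by
      ext x
      rw [mem_inter, mem_insert, mem_insert, mem_inter]
      constructor
      · rintro ⟨h1, rfl | h2⟩
        · exact Or.inl rfl
        · exact Or.inr ⟨h1, h2⟩
      · rintro (rfl | ⟨h1, h2⟩)
        · exact ⟨hm, Or.inl rfl⟩
        · exact ⟨h1, Or.inr h2⟩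
    rw [this, card_insert_of_notMem (fun h' => hw (mem_inter.1 h').2)]

theorem step (G : SimpleGraph V) (p : ℝ) (w u v : V) (W : Finset V) (h0 : 0 ≤ p) (h1 : p ≤ 1)
    (hwu : w ≠ u) (hwv : w ≠ v) (huv : u ≠ v) (hw : w ∉ W) (hu : u ∉ W) (hv : v ∉ W) :
    ∑ H : SimpleGraph V, wt G p H * (1 / 2) ^ ((dset H u v ∩ insert w W).card) ≤
      (1 - p * (1 - p)) * ∑ H : SimpleGraph V, wt G p H * (1 / 2) ^ ((dset H u v ∩ W).card) := by
  set F : SimpleGraph V → ℝ :=
    fun H => wt G p H * (1 / 2) ^ ((dset H u v ∩ insert w W).card) with hF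
  set K : SimpleGraph V → ℝ := fun H => wt G p H * (1 / 2) ^ ((dset H u v ∩ W).card) with hK
  have s1 : ∀ Φ : SimpleGraph V → ℝ, 4 * ∑ H : SimpleGraph V, Φ H =
      ∑ H : SimpleGraph V, (Φ H + Φ (tog u {w} H) + Φ (tog v {w} H) +
        Φ (tog u {w} (tog v {w} H))) := by
    intro Φ
    rw [sum_add_distrib, sum_add_distrib, sum_add_distrib, sum_tog u w Φ, sum_tog v w Φ,
      sum_tog v w (fun H => Φ (tog u {w} H)), sum_tog u w Φ]
    ring
  have key : ∀ H : SimpleGraph V, F H + F (tog u {w} H) + F (tog v {w} H) +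
      F (tog u {w} (tog v {w} H)) ≤ (1 - p * (1 - p)) * (K H + K (tog u {w} H) +
        K (tog v {w} H) + K (tog u {w} (tog v {w} H))) := by
    intro H
    have hvw : s(w, v) ≠ s(w, u) := by
      rw [Ne, Sym2.eq_iff]
      rintro (⟨-, h⟩ | ⟨h, -⟩)
      · exact huv h.symm
      · exact hwu h
    have a1 : (tog u {w} H).Adj w u ↔ ¬ H.Adj w u := tog_adj_self u w hwu H
    have a2 : (tog u {w} H).Adj w v ↔ H.Adj w v := tog_adj_ne u w w v hwu H hvw
    have b1 : (tog v {w} H).Adj w u ↔ H.Adj w u := tog_adj_ne v w w u hwv H hvw.symm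
    have b2 : (tog v {w} H).Adj w v ↔ ¬ H.Adj w v := tog_adj_self v w hwv H
    have c1 : (tog u {w} (tog v {w} H)).Adj w u ↔ ¬ H.Adj w u := by
      rw [tog_adj_self u w hwu, b1]
    have c2 : (tog u {w} (tog v {w} H)).Adj w v ↔ ¬ H.Adj w v := by
      rw [tog_adj_ne u w w v hwu _ hvw, b2]
    simp only [hF, hK]
    rw [card_insert_dset H w u v W hwu hwv hw, card_insert_dset (tog u {w} H) w u v W hwu hwv hw,
      card_insert_dset (tog v {w} H) w u v W hwu hwv hw,
      card_insert_dset (tog u {w} (tog v {w} H)) w u v W hwu hwv hw,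
      dset_tog1 (tog v {w} H) w u v W hwu huv hw hu hv, dset_tog1 H w u v W hwu huv hw hu hv,
      dset_tog2 H w u v W hwv huv hw hu hv,
      wt_eq G H p w u v hwu hwv huv, wt_eq G (tog u {w} H) p w u v hwu hwv huv,
      wt_eq G (tog v {w} H) p w u v hwu hwv huv,
      wt_eq G (tog u {w} (tog v {w} H)) p w u v hwu hwv huv,
      cc_tog1 G (tog v {w} H) p w u v hwu, cc_tog1 G H p w u v hwu, cc_tog2 G H p w u v hwv]
    have hc := cc_nonneg G H p w u v h0 h1
    set c := cc G H p w u v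
    set A := (dset H u v ∩ W).card
    have hA : (0 : ℝ) ≤ (1 / 2) ^ A := by positivity
    have hcA : 0 ≤ c * (1 / 2) ^ A := mul_nonneg hc hA
    have hp : 0 ≤ p * (1 - p) := mul_nonneg h0 (by linarith)
    have hp4 : 0 ≤ 1 / 2 - 2 * (p * (1 - p)) := by nlinarith [sq_nonneg (2 * p - 1)]
    have hq := mul_nonneg hcA hp4
    by_cases g1 : G.Adj w u <;> by_cases g2 : G.Adj w v <;> by_cases k1 : H.Adj w u <;>
      by_cases k2 : H.Adj w v <;>
      simp only [a1, a2, b1, b2, c1, c2, g1, g2, k1, k2, not_true, not_false_iff, iff_true,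
        iff_false, if_true, if_false, add_zero, pow_add, pow_one] <;>
      nlinarith [hq, hcA]
  have h4 := s1 F
  have h5 := s1 K
  have h6 : ∑ H : SimpleGraph V, (F H + F (tog u {w} H) + F (tog v {w} H) +
      F (tog u {w} (tog v {w} H))) ≤ (1 - p * (1 - p)) * ∑ H : SimpleGraph V,
        (K H + K (tog u {w} H) + K (tog v {w} H) + K (tog u {w} (tog v {w} H))) := by
    rw [mul_sum]
    exact sum_le_sum fun H _ => key H
  rw [← h4, ← h5] at h6
  nlinarith [h6]

end EXM_

open EXM_ in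
theorem p_EXM : T_EXM := by
  intro V _ G p u v h0 h1 huv W
  induction W using Finset.induction_on with
  | empty =>
    intro _ _
    simp
  | insert w W hw ih =>
    intro hu hv
    rw [mem_insert, not_or] at hu hv
    have hwu : w ≠ u := fun h => hu.1 h.symm
    have hwv : w ≠ v := fun h => hv.1 h.symm
    have hq : 0 ≤ 1 - p * (1 - p) := by nlinarith [sq_nonneg (2 * p - 1)]
    refine (step G p w u v W h0 h1 hwu hwv huv hw hu.2 hv.2).trans ?_
    rw [card_insert_of_notMem hw, pow_succ]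
    have := mul_le_mul_of_nonneg_left (ih hu.2 hv.2) hq
    nlinarith [this]

end Pool.Agent.NRY
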