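import Pool.Agent.NRY.Targets

/-!
# NRY, target FLP: the real estimates
-/

set_option autoImplicit false

open Finset Classical

namespace Pool.Agent.NRY

open Pool.Agent Pool.Agent.Lib.Recon Pool.Agent.RNB Pool.Agent.NRC

namespace FLP_

/-- The lower bound for `p (1 - p)`. -/
lemma pq {n N a b x : ℝ} (hn : 3 ≤ n) (hN : N = n * (n - 1) / 2) (hab : a + b = N)
    (hx : 0 ≤ x) (ha : x * n ≤ a) (hb : x * n ≤ b) :
    x / 2 ≤ a / N * (1 - a / N) * (n - 2) := by
  have hN3 : 3 ≤ N := by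
    rw [hN]
    nlinarith
  have hN0 : 0 < N := by linarith
  have hxn : 0 ≤ x * n := by positivity
  have hb' : b = N - a := by linarith
  have e1 : a / N * (1 - a / N) * (n - 2) = a * b * (n - 2) / N ^ 2 := by
    rw [hb']
    field_simp
  rw [e1, le_div_iff₀ (by positivity)]
  have h1 : x * n * N / 2 ≤ a * b := by
    rcases le_total (N / 2) a with h | h
    · have h2 : x * n * (N / 2) ≤ b * a := mul_le_mul hb h (by linarith) (by linarith)
      linarith
    · have h3 : N / 2 ≤ b := by linarith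
      have h2 : x * n * (N / 2) ≤ a * b := mul_le_mul ha h3 (by linarith) (by linarith)
      linarith
  have h4 : x * n * N / 2 * (n - 2) ≤ a * b * (n - 2) :=
    mul_le_mul_of_nonneg_right h1 (by linarith)
  have h5 : N ≤ n * (n - 2) := by
    rw [hN]
    nlinarith
  have h6 : x * N * N ≤ x * N * (n * (n - 2)) :=
    mul_le_mul_of_nonneg_left h5 (by positivity)
  nlinarith

/-- The main estimate. -/
lemma est {n L C1 N P : ℝ} {l k : ℕ} (hn : n = (2 : ℝ) ^ L) (hL : 1 ≤ L) (hC1 : 0 < C1)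
    (hN0 : 0 ≤ N) (hN : N + 1 ≤ n ^ 2) (hl : (l : ℝ) ≤ C1 * L + 1) (hP0 : 0 ≤ 1 - P)
    (hP : (C1 + 6) * L ≤ P * k) :
    n * ((N + 1) * (n ^ 2 * 2 ^ l * (1 - P) ^ k)) ≤ 1 := by
  have h20 : (0 : ℝ) < 2 := by norm_num
  have e1 : (1 - P) ^ k ≤ (2 : ℝ) ^ (-((C1 + 6) * L)) := by
    have h1 : 1 - P ≤ Real.exp (-P) := by
      have := Real.add_one_le_exp (-P)
      linarith
    have h2 : (1 - P) ^ k ≤ Real.exp (-P) ^ k := pow_le_pow_left₀ hP0 h1 k
    have h3 : Real.exp (-P) ^ k = Real.exp (-(P * k)) := by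
      rw [← Real.exp_nat_mul]
      congr 1
      ring
    have h4 : Real.exp (-(P * k)) ≤ Real.exp (-((C1 + 6) * L)) :=
      Real.exp_le_exp.2 (by linarith)
    have h5 : Real.exp (-((C1 + 6) * L)) ≤ (2 : ℝ) ^ (-((C1 + 6) * L)) := by
      rw [Real.rpow_def_of_pos h20]
      apply Real.exp_le_exp.2
      have h7 := Real.log_two_lt_d9
      have h6 : 0 ≤ (C1 + 6) * L := by positivity
      nlinarith
    calc (1 - P) ^ k ≤ Real.exp (-P) ^ k := h2
      _ = Real.exp (-(P * k)) := h3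
      _ ≤ Real.exp (-((C1 + 6) * L)) := h4
      _ ≤ (2 : ℝ) ^ (-((C1 + 6) * L)) := h5
  have e2 : (2 : ℝ) ^ l ≤ (2 : ℝ) ^ (C1 * L + 1) := by
    rw [← Real.rpow_natCast]
    exact Real.rpow_le_rpow_of_exponent_le (by norm_num) hl
  have e3 : n ^ 2 = (2 : ℝ) ^ (2 * L) := by
    rw [hn, ← Real.rpow_natCast, ← Real.rpow_mul h20.le]
    congr 1
    push_cast
    ring
  have e4 : (0 : ℝ) ≤ (1 - P) ^ k := pow_nonneg hP0 k
  have e5 : n ^ 2 * 2 ^ l * (1 - P) ^ k ≤
      (2 : ℝ) ^ (2 * L) * (2 : ℝ) ^ (C1 * L + 1) * (2 : ℝ) ^ (-((C1 + 6) * L)) := by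
    rw [e3]
    apply mul_le_mul _ e1 e4 (by positivity)
    exact mul_le_mul_of_nonneg_left e2 (by positivity)
  have e6 : (N + 1) * (n ^ 2 * 2 ^ l * (1 - P) ^ k) ≤ (2 : ℝ) ^ (2 * L) *
      ((2 : ℝ) ^ (2 * L) * (2 : ℝ) ^ (C1 * L + 1) * (2 : ℝ) ^ (-((C1 + 6) * L))) := by
    apply mul_le_mul _ e5 (by positivity) (by positivity)
    rw [← e3]
    exact hN
  have e7 : n * ((N + 1) * (n ^ 2 * 2 ^ l * (1 - P) ^ k)) ≤ (2 : ℝ) ^ L * ((2 : ℝ) ^ (2 * L) *
      ((2 : ℝ) ^ (2 * L) * (2 : ℝ) ^ (C1 * L + 1) * (2 : ℝ) ^ (-((C1 + 6) * L)))) := by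
    rw [hn] at e6 ⊢
    exact mul_le_mul_of_nonneg_left e6 (by positivity)
  refine e7.trans ?_
  rw [← Real.rpow_add h20, ← Real.rpow_add h20, ← Real.rpow_add h20, ← Real.rpow_add h20]
  have e8 : L + (2 * L + (2 * L + (C1 * L + 1) + -((C1 + 6) * L))) = 1 - L := by ring
  rw [e8]
  exact Real.rpow_le_one_of_one_le_of_nonpos (by norm_num) (by linarith)

end FLP_

open FLP_

theorem p_FLP (h1 : T_PFX) (h2 : NRV.T_CRT) : T_FLP := by
  obtain ⟨C1, hC1, hcrt⟩ := h2
  refine ⟨2 * C1 + 12, by linarith, ?_⟩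
  intro V _ G m hn3 hm1 hm2
  have hnR : (3 : ℝ) ≤ (Fintype.card V : ℝ) := by exact_mod_cast hn3
  have hn0 : (0 : ℝ) < (Fintype.card V : ℝ) := by linarith
  have hL : 1 ≤ Real.logb 2 (Fintype.card V) := by
    rw [Real.le_logb_iff_rpow_le (by norm_num) hn0]
    rw [Real.rpow_one]
    linarith
  have hnL : (Fintype.card V : ℝ) = (2 : ℝ) ^ (Real.logb 2 (Fintype.card V)) :=
    (Real.rpow_logb (by norm_num) (by norm_num) hn0).symm
  have hNR : (((Fintype.card V).choose 2 : ℕ) : ℝ) =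
      (Fintype.card V : ℝ) * ((Fintype.card V : ℝ) - 1) / 2 := Nat.cast_choose_two ℝ _
  have hx0 : 0 ≤ (2 * C1 + 12) * Real.logb 2 (Fintype.card V) := by positivity
  have hmN : m ≤ (Fintype.card V).choose 2 := by
    have h3 : (m : ℝ) ≤ (((Fintype.card V).choose 2 : ℕ) : ℝ) := by
      have h4 : 0 ≤ (2 * C1 + 12) * (Fintype.card V) * Real.logb 2 (Fintype.card V) := by
        positivity
      linarith
    exact_mod_cast h3
  have hN1 : 1 ≤ (Fintype.card V).choose 2 := by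
    have h3 : (3 : ℝ) ≤ (((Fintype.card V).choose 2 : ℕ) : ℝ) := by
      rw [hNR]
      nlinarith
    have h4 : 3 ≤ (Fintype.card V).choose 2 := by exact_mod_cast h3
    omega
  have hN0 : (0 : ℝ) < (((Fintype.card V).choose 2 : ℕ) : ℝ) := by exact_mod_cast hN1
  set l : ℕ := ⌈C1 * Real.logb 2 (Fintype.card V)⌉₊ with hl
  have hl1 : (l : ℝ) ≤ C1 * Real.logb 2 (Fintype.card V) + 1 :=
    (Nat.ceil_lt_add_one (by positivity)).le
  have hl2 : C1 * Real.logb 2 (Fintype.card V) ≤ (l : ℝ) := Nat.le_ceil _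
  -- the non-reconstructible graphs
  have hsub : (univ.filter (fun H : SimpleGraph V => df G H = m ∧ ¬ HER47.Rec H)).card ≤
      (univ.filter (fun H : SimpleGraph V => df G H = m ∧
        ∃ u v, u ≠ v ∧ (dset H u v).card < l)).card := by
    apply Finset.card_le_card
    intro H hH
    rw [Finset.mem_filter] at hH ⊢
    refine ⟨Finset.mem_univ _, hH.2.1, ?_⟩
    by_contra hcon
    apply hH.2.2
    apply hcrt V H ∅ hn3
    · simp
    · intro u v _ _ huv
      by_contra hlt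
      apply hcon
      refine ⟨u, v, huv, ?_⟩
      by_contra hge
      apply hlt
      have h5 : (l : ℝ) ≤ ((dset H u v).card : ℝ) := by exact_mod_cast not_lt.1 hge
      linarith
  have hpf := h1 V G m l hN1 hmN
  have hkey : (Fintype.card V : ℝ) * ((((Fintype.card V).choose 2 : ℕ) + 1) *
      ((Fintype.card V : ℝ) ^ 2 * 2 ^ l *
      (1 - (m : ℝ) / ((Fintype.card V).choose 2 : ℕ) *
        (1 - (m : ℝ) / ((Fintype.card V).choose 2 : ℕ))) ^ (Fintype.card V - 2))) ≤ 1 := by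
    refine est hnL hL hC1 hN0.le ?_ hl1 ?_ ?_
    · rw [hNR]
      nlinarith
    · have h6 : (0 : ℝ) ≤ (m : ℝ) / ((Fintype.card V).choose 2 : ℕ) := by positivity
      nlinarith [sq_nonneg ((m : ℝ) / ((Fintype.card V).choose 2 : ℕ) - 1 / 2)]
    · have h7 : ((Fintype.card V - 2 : ℕ) : ℝ) = (Fintype.card V : ℝ) - 2 := by
        rw [Nat.cast_sub (by omega)]
        norm_num
      rw [h7]
      have h8 := pq (a := (m : ℝ)) (b := (((Fintype.card V).choose 2 : ℕ) : ℝ) - m)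
        (x := (2 * C1 + 12) * Real.logb 2 (Fintype.card V)) hnR hNR (by ring) hx0
        (by linarith) (by linarith)
      linarith
  have hcard : ((univ.filter (fun H : SimpleGraph V => df G H = m ∧ ¬ HER47.Rec H)).card : ℝ) ≤
      ((univ.filter (fun H : SimpleGraph V => df G H = m ∧
        ∃ u v, u ≠ v ∧ (dset H u v).card < l)).card : ℝ) := by exact_mod_cast hsub
  have h9 := hcard.trans hpf
  have h10 := mul_le_mul_of_nonneg_left h9 hn0.le
  refine h10.trans ?_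
  rw [← mul_assoc]
  have h11 := mul_le_mul_of_nonneg_right hkey (Nat.cast_nonneg (α := ℝ)
    (univ.filter (fun H : SimpleGraph V => df G H = m)).card)
  rw [one_mul] at h11
  exact h11

end Pool.Agent.NRY
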