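import Pool.Agent.NRY.Targets

/-!
# The mode of the binomial distribution, in natural numbers
-/

set_option autoImplicit false

open Finset Classical

namespace Pool.Agent.NRY

open Pool.Agent Pool.Agent.Lib.Recon Pool.Agent.RNB Pool.Agent.NRC

namespace MOD_

/-- The terms of the binomial theorem for `(m + (N - m)) ^ N`. -/
def tm (N m k : ℕ) : ℕ := m ^ k * (N - m) ^ (N - k) * N.choose k

theorem up (N m k : ℕ) (hm : m ≤ N) (hk : k + 1 ≤ m) : tm N m k ≤ tm N m (k + 1) := by
  unfold tm
  have h1 : N - k = N - (k + 1) + 1 := by omega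
  have h2 : (k + 1) * (N - m) ≤ m * (N - k) := Nat.mul_le_mul hk (by omega)
  have h3 : N.choose (k + 1) * (k + 1) = N.choose k * (N - k) := Nat.choose_succ_right_eq N k
  have h4 : (N - m) * N.choose k ≤ m * N.choose (k + 1) := by
    have h5 : (k + 1) * ((N - m) * N.choose k) ≤ (k + 1) * (m * N.choose (k + 1)) := by
      calc (k + 1) * ((N - m) * N.choose k) = (k + 1) * (N - m) * N.choose k := by ring
        _ ≤ m * (N - k) * N.choose k := Nat.mul_le_mul_right _ h2
        _ = m * (N.choose k * (N - k)) := by ring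
        _ = m * (N.choose (k + 1) * (k + 1)) := by rw [h3]
        _ = (k + 1) * (m * N.choose (k + 1)) := by ring
    exact Nat.le_of_mul_le_mul_left h5 (Nat.succ_pos k)
  calc m ^ k * (N - m) ^ (N - k) * N.choose k
      = m ^ k * (N - m) ^ (N - (k + 1)) * ((N - m) * N.choose k) := by rw [h1, pow_succ]; ring
    _ ≤ m ^ k * (N - m) ^ (N - (k + 1)) * (m * N.choose (k + 1)) := Nat.mul_le_mul_left _ h4
    _ = m ^ (k + 1) * (N - m) ^ (N - (k + 1)) * N.choose (k + 1) := by rw [pow_succ]; ring

theorem down (N m k : ℕ) (hk : m ≤ k) (hN : k + 1 ≤ N) : tm N m (k + 1) ≤ tm N m k := by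
  unfold tm
  have h1 : N - k = N - (k + 1) + 1 := by omega
  have h2 : m * (N - k) ≤ (k + 1) * (N - m) := Nat.mul_le_mul (by omega) (by omega)
  have h3 : N.choose (k + 1) * (k + 1) = N.choose k * (N - k) := Nat.choose_succ_right_eq N k
  have h4 : m * N.choose (k + 1) ≤ (N - m) * N.choose k := by
    have h5 : (k + 1) * (m * N.choose (k + 1)) ≤ (k + 1) * ((N - m) * N.choose k) := by
      calc (k + 1) * (m * N.choose (k + 1)) = m * (N.choose (k + 1) * (k + 1)) := by ring
        _ = m * (N.choose k * (N - k)) := by rw [h3]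
        _ = m * (N - k) * N.choose k := by ring
        _ ≤ (k + 1) * (N - m) * N.choose k := Nat.mul_le_mul_right _ h2
        _ = (k + 1) * ((N - m) * N.choose k) := by ring
    exact Nat.le_of_mul_le_mul_left h5 (Nat.succ_pos k)
  calc m ^ (k + 1) * (N - m) ^ (N - (k + 1)) * N.choose (k + 1)
      = m ^ k * (N - m) ^ (N - (k + 1)) * (m * N.choose (k + 1)) := by rw [pow_succ]; ring
    _ ≤ m ^ k * (N - m) ^ (N - (k + 1)) * ((N - m) * N.choose k) := Nat.mul_le_mul_left _ h4
    _ = m ^ k * (N - m) ^ (N - k) * N.choose k := by rw [h1, pow_succ]; ring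

theorem low (N m : ℕ) (hm : m ≤ N) : ∀ j, j ≤ m → tm N m (m - j) ≤ tm N m m := by
  intro j
  induction j with
  | zero => intro _; exact le_refl _
  | succ j ih =>
    intro hj
    have h := up N m (m - (j + 1)) hm (by omega)
    have e : m - (j + 1) + 1 = m - j := by omega
    rw [e] at h
    exact h.trans (ih (by omega))

theorem high (N m : ℕ) : ∀ j, m + j ≤ N → tm N m (m + j) ≤ tm N m m := by
  intro j
  induction j with
  | zero => intro _; exact le_refl _
  | succ j ih =>
    intro hj
    exact (down N m (m + j) (by omega) (by omega)).trans (ih (by omega))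

end MOD_

open MOD_

theorem p_MOD : T_MOD := by
  intro N m hm
  have hsum : N ^ N = ∑ k ∈ range (N + 1), tm N m k := by
    have h := add_pow m (N - m) N
    rw [Nat.add_sub_of_le hm] at h
    exact h
  have hle : ∀ k ∈ range (N + 1), tm N m k ≤ tm N m m := by
    intro k hk
    have hk' : k < N + 1 := mem_range.1 hk
    rcases le_total k m with h | h
    · have h1 := low N m hm (m - k) (by omega)
      have e : m - (m - k) = k := by omega
      rwa [e] at h1
    · have h1 := high N m (k - m) (by omega)
      have e : m + (k - m) = k := by omega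
      rwa [e] at h1
  rw [hsum]
  refine (sum_le_sum hle).trans ?_
  rw [sum_const, card_range, smul_eq_mul]
  unfold tm
  exact le_of_eq (by ring)

end Pool.Agent.NRY
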