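import Pool.Agent.NRY.Targets

/-!
# NRY, target PFX: from weights to exactly `m` flips
-/

set_option autoImplicit false

open Finset Classical

namespace Pool.Agent.NRY

open Pool.Agent Pool.Agent.Lib.Recon Pool.Agent.RNB Pool.Agent.NRC

namespace PFX_

/-- the inequality of MOD, divided by `N ^ N` -/
theorem mod_real (h3 : T_MOD) (N m : ℕ) (hN : 1 ≤ N) (hm : m ≤ N) :
    (1 : ℝ) ≤ ((N : ℝ) + 1) * (N.choose m *
      (((m : ℝ) / N) ^ m * (1 - (m : ℝ) / N) ^ (N - m))) := by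
  have hN0 : (0 : ℝ) < N := by exact_mod_cast hN
  have h1 : ((N : ℝ)) ^ N ≤ ((N : ℝ) + 1) * (N.choose m * ((m : ℝ) ^ m *
      ((N : ℝ) - m) ^ (N - m))) := by
    have h := h3 N m hm
    have h' : ((N ^ N : ℕ) : ℝ) ≤
        (((N + 1) * (N.choose m * (m ^ m * (N - m) ^ (N - m))) : ℕ) : ℝ) := by
      exact_mod_cast h
    push_cast [Nat.cast_sub hm] at h'
    exact h'
  have h2 : (1 : ℝ) - (m : ℝ) / N = ((N : ℝ) - m) / N := by
    field_simp
  have h4 : ((m : ℝ) / N) ^ m * (1 - (m : ℝ) / N) ^ (N - m) =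
      ((m : ℝ) ^ m * ((N : ℝ) - m) ^ (N - m)) / (N : ℝ) ^ N := by
    rw [h2, div_pow, div_pow, div_mul_div_comm, ← pow_add, Nat.add_sub_cancel' hm]
  rw [h4, ← mul_div_assoc, ← mul_div_assoc, one_le_div (pow_pos hN0 N)]
  exact h1

theorem wt_nonneg {V : Type} [Fintype V] (G : SimpleGraph V) {p : ℝ} (hp : 0 ≤ p) (hp1 : p ≤ 1)
    (H : SimpleGraph V) : 0 ≤ wt G p H :=
  mul_nonneg (pow_nonneg hp _) (pow_nonneg (by linarith) _)

end PFX_

open PFX_ in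
/-- PFX. -/
theorem p_PFX (h1 : T_UNB) (h2 : T_CNK) (h3 : T_MOD) : T_PFX := by
  intro V _ G m l hN hm
  obtain ⟨N, hNdef⟩ : ∃ N : ℕ, N = (Fintype.card V).choose 2 := ⟨_, rfl⟩
  have hN' := hN
  have hm' := hm
  rw [← hNdef] at hN' hm'
  have hN0 : (0 : ℝ) < N := by exact_mod_cast hN'
  have hmN : (m : ℝ) ≤ N := by exact_mod_cast hm'
  obtain ⟨p, hp⟩ : ∃ p : ℝ, p = (m : ℝ) / N := ⟨_, rfl⟩
  have hp0 : 0 ≤ p := by
    rw [hp]
    positivity
  have hp1 : p ≤ 1 := by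
    rw [hp]
    exact div_le_one_of_le₀ hmN hN0.le
  have hU := h1 V G p l hp0 hp1
  obtain ⟨R, hR⟩ : ∃ R : ℝ, R = (Fintype.card V : ℝ) ^ 2 * 2 ^ l *
    (1 - p * (1 - p)) ^ (Fintype.card V - 2) := ⟨_, rfl⟩
  rw [← hR] at hU
  obtain ⟨w, hw⟩ : ∃ w : ℝ, w = p ^ m * (1 - p) ^ (N - m) := ⟨_, rfl⟩
  have hw0 : 0 ≤ w := by
    rw [hw]
    exact mul_nonneg (pow_nonneg hp0 _) (pow_nonneg (by linarith) _)
  have hmod : (1 : ℝ) ≤ ((N : ℝ) + 1) * (N.choose m * w) := by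
    have h := mod_real h3 N m hN' hm'
    rw [← hp, ← hw] at h
    exact h
  have hbad : ((univ.filter (fun H : SimpleGraph V => df G H = m ∧
      ∃ u v, u ≠ v ∧ (dset H u v).card < l)).card : ℝ) * w ≤ R := by
    refine le_trans (le_of_eq ?_) ((Finset.sum_le_sum_of_subset_of_nonneg
      (s := univ.filter (fun H : SimpleGraph V => df G H = m ∧
        ∃ u v, u ≠ v ∧ (dset H u v).card < l)) ?_
      fun H _ _ => wt_nonneg G hp0 hp1 H).trans hU)
    · rw [← nsmul_eq_mul, ← Finset.sum_const]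
      refine Finset.sum_congr rfl fun H hH => ?_
      have h4 := (Finset.mem_filter.1 hH).2.1
      rw [wt, h4, ← hNdef, hw]
    · intro H hH
      exact Finset.mem_filter.2 ⟨Finset.mem_univ _, (Finset.mem_filter.1 hH).2.2⟩
  have hR0 : 0 ≤ R := le_trans (mul_nonneg (Nat.cast_nonneg _) hw0) hbad
  have hcnk : ((univ.filter (fun H : SimpleGraph V => df G H = m)).card : ℝ) =
      (N.choose m : ℝ) := by
    rw [h2 V G m, ← hNdef]
  rw [hcnk, ← hNdef, ← hp, ← hR]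
  obtain ⟨b, hb⟩ : ∃ b : ℝ, b = ((univ.filter (fun H : SimpleGraph V => df G H = m ∧
      ∃ u v, u ≠ v ∧ (dset H u v).card < l)).card : ℝ) := ⟨_, rfl⟩
  rw [← hb] at hbad ⊢
  have hb0 : 0 ≤ b := by
    rw [hb]
    exact Nat.cast_nonneg _
  have hc0 : (0 : ℝ) ≤ (N.choose m : ℝ) := Nat.cast_nonneg _
  calc b = b * 1 := (mul_one b).symm
    _ ≤ b * (((N : ℝ) + 1) * (N.choose m * w)) := mul_le_mul_of_nonneg_left hmod hb0
    _ = (((N : ℝ) + 1) * (N.choose m : ℝ)) * (b * w) := by ring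
    _ ≤ (((N : ℝ) + 1) * (N.choose m : ℝ)) * R :=
      mul_le_mul_of_nonneg_left hbad (mul_nonneg (by positivity) hc0)
    _ = ((N : ℝ) + 1) * R * (N.choose m : ℝ) := by ring

end Pool.Agent.NRY
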