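import Pool.Agent.NRY.Targets

/-!
# NRY, block UNB: Markov and union bound
-/

set_option autoImplicit false

open Finset Classical

namespace Pool.Agent.NRY

open Pool.Agent Pool.Agent.Lib.Recon Pool.Agent.RNB Pool.Agent.NRC

namespace UNB_

variable {V : Type} [Fintype V]

theorem df_le (h2 : T_CNK) (G H : SimpleGraph V) : df G H ≤ (Fintype.card V).choose 2 := by
  by_contra hcon
  rw [not_le] at hcon
  have h := h2 V G (df G H)
  rw [Nat.choose_eq_zero_of_lt hcon, Finset.card_eq_zero] at h
  have hm : H ∈ univ.filter (fun H' : SimpleGraph V => df G H' = df G H) := by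
    rw [mem_filter]
    exact ⟨mem_univ _, rfl⟩
  rw [h] at hm
  exact absurd hm (Finset.notMem_empty _)

theorem wt_nonneg (G : SimpleGraph V) (p : ℝ) (h0 : 0 ≤ p) (h1 : p ≤ 1) (H : SimpleGraph V) :
    0 ≤ wt G p H := by
  unfold wt
  exact mul_nonneg (pow_nonneg h0 _) (pow_nonneg (by linarith) _)

theorem sum_wt (h2 : T_CNK) (G : SimpleGraph V) (p : ℝ) :
    ∑ H : SimpleGraph V, wt G p H = 1 := by
  have hmap : ∀ H ∈ (univ : Finset (SimpleGraph V)),
      df G H ∈ range ((Fintype.card V).choose 2 + 1) := by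
    intro H _
    rw [mem_range]
    exact Nat.lt_succ_of_le (df_le h2 G H)
  rw [← Finset.sum_fiberwise_of_maps_to hmap (fun H => wt G p H)]
  have hk : ∀ k ∈ range ((Fintype.card V).choose 2 + 1),
      ∑ H ∈ univ.filter (fun H : SimpleGraph V => df G H = k), wt G p H =
      p ^ k * (1 - p) ^ ((Fintype.card V).choose 2 - k) *
        (((Fintype.card V).choose 2).choose k : ℕ) := by
    intro k _
    have h3 : ∀ H ∈ univ.filter (fun H : SimpleGraph V => df G H = k),
        wt G p H = p ^ k * (1 - p) ^ ((Fintype.card V).choose 2 - k) := by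
      intro H hH
      rw [mem_filter] at hH
      unfold wt
      rw [hH.2]
    rw [Finset.sum_congr rfl h3, Finset.sum_const, h2 V G k, nsmul_eq_mul]
    ring
  rw [Finset.sum_congr rfl hk, ← add_pow]
  have h4 : p + (1 - p) = 1 := by ring
  rw [h4, one_pow]

theorem pair_bound (h1 : T_EXM) (h2 : T_CNK) (G : SimpleGraph V) (p : ℝ) (l : ℕ) (hp0 : 0 ≤ p)
    (hp1 : p ≤ 1) (u v : V) (huv : u ≠ v) :
    ∑ H : SimpleGraph V, (if (dset H u v).card < l then wt G p H else 0) ≤
      2 ^ l * (1 - p * (1 - p)) ^ (Fintype.card V - 2) := by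
  have hW1 : u ∉ (univ.erase u).erase v := by
    intro h
    exact (Finset.notMem_erase u univ) (Finset.mem_of_mem_erase h)
  have hW2 : v ∉ (univ.erase u).erase v := Finset.notMem_erase v _
  have hcard : ((univ.erase u).erase v).card = Fintype.card V - 2 := by
    rw [Finset.card_erase_of_mem, Finset.card_erase_of_mem (mem_univ u), Finset.card_univ,
      Nat.sub_sub]
    rw [Finset.mem_erase]
    exact ⟨huv.symm, mem_univ v⟩
  have hE := h1 V G p u v hp0 hp1 huv ((univ.erase u).erase v) hW1 hW2
  rw [sum_wt h2 G p, mul_one, hcard] at hE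
  have hstep : ∑ H : SimpleGraph V, (if (dset H u v).card < l then wt G p H else 0) ≤
      ∑ H : SimpleGraph V, 2 ^ l * (wt G p H *
        (1 / 2) ^ ((dset H u v ∩ (univ.erase u).erase v).card)) := by
    apply Finset.sum_le_sum
    intro H _
    have hw := wt_nonneg G p hp0 hp1 H
    have hpos : (0 : ℝ) ≤ (1 / 2) ^ ((dset H u v ∩ (univ.erase u).erase v).card) := by
      positivity
    split_ifs with hl
    · have hc : (dset H u v ∩ (univ.erase u).erase v).card ≤ l :=
        le_trans (Finset.card_le_card Finset.inter_subset_left) hl.le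
      have h5 : (1 / 2 : ℝ) ^ l ≤ (1 / 2) ^ ((dset H u v ∩ (univ.erase u).erase v).card) :=
        pow_le_pow_of_le_one (by norm_num) (by norm_num) hc
      have h6 : (2 : ℝ) ^ l * (1 / 2) ^ l = 1 := by
        rw [← mul_pow]
        norm_num
      have h7 : (1 : ℝ) ≤ 2 ^ l * (1 / 2) ^ ((dset H u v ∩ (univ.erase u).erase v).card) := by
        refine le_trans (le_of_eq h6.symm) ?_
        exact mul_le_mul_of_nonneg_left h5 (by positivity)
      calc wt G p H = wt G p H * 1 := (mul_one _).symm
        _ ≤ wt G p H *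
            (2 ^ l * (1 / 2) ^ ((dset H u v ∩ (univ.erase u).erase v).card)) :=
          mul_le_mul_of_nonneg_left h7 hw
        _ = 2 ^ l * (wt G p H * (1 / 2) ^ ((dset H u v ∩ (univ.erase u).erase v).card)) := by
          ring
    · exact mul_nonneg (by positivity) (mul_nonneg hw hpos)
  refine le_trans hstep ?_
  rw [← Finset.mul_sum]
  exact mul_le_mul_of_nonneg_left hE (by positivity)

end UNB_

open UNB_

theorem p_UNB (h1 : T_EXM) (h2 : T_CNK) : T_UNB := by
  intro V _ G p l hp0 hp1
  have hK : (0 : ℝ) ≤ 2 ^ l * (1 - p * (1 - p)) ^ (Fintype.card V - 2) := by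
    have h3 : (0 : ℝ) ≤ 1 - p * (1 - p) := by nlinarith [sq_nonneg (p - 1 / 2)]
    positivity
  have hA : ∑ H ∈ univ.filter (fun H : SimpleGraph V => ∃ u v, u ≠ v ∧ (dset H u v).card < l),
      wt G p H ≤ ∑ H : SimpleGraph V, ∑ x : V × V,
        (if x.1 ≠ x.2 ∧ (dset H x.1 x.2).card < l then wt G p H else 0) := by
    rw [Finset.sum_filter]
    apply Finset.sum_le_sum
    intro H _
    have hw := wt_nonneg G p hp0 hp1 H
    have hn : ∀ x ∈ (univ : Finset (V × V)),
        0 ≤ (if x.1 ≠ x.2 ∧ (dset H x.1 x.2).card < l then wt G p H else 0) := by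
      intro x _
      split_ifs
      · exact hw
      · exact le_refl _
    split_ifs with hb
    · obtain ⟨u, v, huv, hl⟩ := hb
      have h8 := Finset.single_le_sum hn (mem_univ (u, v))
      rw [if_pos ⟨huv, hl⟩] at h8
      exact h8
    · exact Finset.sum_nonneg hn
  refine le_trans hA ?_
  rw [Finset.sum_comm]
  have hB : ∀ x ∈ (univ : Finset (V × V)), ∑ H : SimpleGraph V,
      (if x.1 ≠ x.2 ∧ (dset H x.1 x.2).card < l then wt G p H else 0) ≤
      2 ^ l * (1 - p * (1 - p)) ^ (Fintype.card V - 2) := by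
    intro x _
    by_cases hx : x.1 = x.2
    · have h9 : ∀ H ∈ (univ : Finset (SimpleGraph V)),
          (if x.1 ≠ x.2 ∧ (dset H x.1 x.2).card < l then wt G p H else 0) = 0 := by
        intro H _
        rw [if_neg]
        intro h
        exact h.1 hx
      rw [Finset.sum_congr rfl h9, Finset.sum_const_zero]
      exact hK
    · refine le_trans (le_of_eq ?_) (pair_bound h1 h2 G p l hp0 hp1 x.1 x.2 hx)
      apply Finset.sum_congr rfl
      intro H _
      by_cases hl : (dset H x.1 x.2).card < l
      · rw [if_pos ⟨hx, hl⟩, if_pos hl]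
      · rw [if_neg hl, if_neg]
        intro h
        exact hl h.2
  refine le_trans (Finset.sum_le_sum hB) ?_
  rw [Finset.sum_const, Finset.card_univ, Fintype.card_prod, nsmul_eq_mul]
  apply le_of_eq
  push_cast
  ring

end Pool.Agent.NRY
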