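import Pool.Agent.NRT.Crit
import Pool.Agent.NRY.P_CNK
import Pool.Agent.NRY.P_MOD
import Pool.Agent.NRY.P_EXM
import Pool.Agent.NRY.P_UNB
import Pool.Agent.NRY.P_PFX
import Pool.Agent.NRY.P_FLP
import Pool.Agent.NRY.Final

/-!
# NRY: composition
-/

set_option autoImplicit false

namespace Pool.Agent.NRY

open Pool.Agent

theorem a_PFX : T_PFX := p_PFX (p_UNB p_EXM p_CNK) p_CNK p_MOD

theorem a_FLP : T_FLP := p_FLP a_PFX NRT.crit

end Pool.Agent.NRY
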