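import Pool.Agent.NRV.Targets

/-!
# NRY: random flips make every graph reconstructible (MP_552896_co)

Project NRY (owner helper48). For every graph `G` on `n` vertices and every `m` with
`C n log n ≤ m ≤ N - C n log n`, `N = n.choose 2`, at most a fraction `1 / n` of the graphs which
differ from `G` in exactly `m` pairs are not reconstructible. One file per target:
`Pool/Agent/NRY/P_X.lean`, theorem `Pool.Agent.NRY.p_X (other targets) : T_X`; the targets after
`from` are the hypotheses. Notation in the proofs: `n = card V`, `N = n.choose 2`.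
-/

set_option autoImplicit false

open Finset Classical

namespace Pool.Agent.NRY

open Pool.Agent Pool.Agent.Lib.Recon Pool.Agent.RNB Pool.Agent.NRC

/-- the number of pairs in which `G` and `H` differ -/
noncomputable def df {V : Type} [Fintype V] (G H : SimpleGraph V) : ℕ :=
  (univ.filter (fun e : Sym2 V => ¬ (e ∈ G.edgeSet ↔ e ∈ H.edgeSet))).card

/-- the probability of `H` if every pair of `G` is flipped with probability `p` -/
noncomputable def wt {V : Type} [Fintype V] (G : SimpleGraph V) (p : ℝ) (H : SimpleGraph V) : ℝ :=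
  p ^ (df G H) * (1 - p) ^ ((Fintype.card V).choose 2 - df G H)

/-- CNK. PROOF. `H ↦ D H = {e | ¬ (e ∈ G.edgeSet ↔ e ∈ H.edgeSet)}` is a bijection between the
graphs and the subsets of the set `T` of the `N` non-diagonal elements of `Sym2 V`
(`T = (⊤ : SimpleGraph V).edgeFinset`, `SimpleGraph.card_edgeFinset_top_eq_card_choose_two`;
edges are not diagonal, so `D H ⊆ T`); the inverse is `E ↦ fromEdgeSet` of the set of the `e` with
`¬ (e ∈ G.edgeSet ↔ e ∈ E)`. So the number of the `H` with `|D H| = k` is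
`(powersetCard k T).card`. -/
def T_CNK : Prop := ∀ (V : Type) [Fintype V] (G : SimpleGraph V) (k : ℕ),
  (univ.filter (fun H : SimpleGraph V => df G H = k)).card =
    ((Fintype.card V).choose 2).choose k

/-- MOD: the mode of the binomial distribution. PROOF. `N ^ N = (m + (N - m)) ^ N =
∑ k ≤ N, N.choose k * m ^ k * (N - m) ^ (N - k)` (`add_pow`), and every term is at most the term
for `k = m`: the terms increase up to `k = m`, as for `k + 1 ≤ m`
`(k + 1) * (N - m) ≤ m * (N - k)` and `N.choose (k + 1) * (k + 1) = N.choose k * (N - k)`, and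
decrease after it (`m * (N - k) ≤ (k + 1) * (N - m)` for `k ≥ m`). -/
def T_MOD : Prop := ∀ N m : ℕ, m ≤ N →
  N ^ N ≤ (N + 1) * (N.choose m * (m ^ m * (N - m) ^ (N - m)))

/-- EXM: the expectation of `2 ^ (- number of differences of u and v in W)`. PROOF. Induction on
`W`. Step: `w ∉ W`, `w ≠ u`, `w ≠ v`, `u ≠ v`. For `a b : Bool` let `H^ab` be `H` with the pair
`w u` toggled if `a` and the pair `w v` toggled if `b` (compare `tog` in
`Pool/Agent/NRV/P_TOG.lean`): an involution on the graphs, so `4 ∑_H F H = ∑_H ∑_ab F (H^ab)`.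
`dset (H^ab) u v ∩ W = dset H u v ∩ W`. Let `e` be the number of the pairs other than `w u`, `w v`
in which `G` and `H` differ, `i`, `j` = 1 if `G`, `H^ab` differ in `w u`, `w v`, else `0`:
`wt (H^ab) = p^(e + i + j) (1 - p)^(N - e - i - j)`, and `(i, j)` takes the four values once. With
`c = p^e (1 - p)^(N - e - 2)` (`e ≤ N - 2`) the four weights are `c (1 - p)^2`, `c p (1 - p)`
twice, `c p^2`, their sum is `c`. `w ∈ dset (H^ab) u v` iff `i + j` is odd (if `w ∉ dset G u v`) or
even (otherwise); the weights of these are together at least `2 c p (1 - p)`, so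
`∑_ab wt (H^ab) (1/2)^[w ∈ dset (H^ab) u v] ≤ c - c p (1 - p)`. -/
def T_EXM : Prop := ∀ (V : Type) [Fintype V] (G : SimpleGraph V) (p : ℝ) (u v : V), 0 ≤ p →
  p ≤ 1 → u ≠ v → ∀ W : Finset V, u ∉ W → v ∉ W →
  ∑ H : SimpleGraph V, wt G p H * (1 / 2) ^ ((dset H u v ∩ W).card) ≤
    (1 - p * (1 - p)) ^ W.card * ∑ H : SimpleGraph V, wt G p H

/-- UNB (from EXM, CNK). PROOF. `∑_H wt G p H = ∑ k ≤ N, N.choose k * p^k (1 - p)^(N - k) = 1`
(CNK; `df G H ≤ N`). For fixed `u ≠ v` EXM with `W = univ \ {u, v}`, `|W| = n - 2`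
(`dset H u v ⊆ W`): for `|dset H u v| < l` we have `1 ≤ 2^l (1/2)^|dset H u v|`, so the `H` with
`|dset H u v| < l` have weight at most `2^l (1 - p (1 - p))^(n - 2)`. Sum over the at most `n^2`
pairs. -/
def T_UNB : Prop := ∀ (V : Type) [Fintype V] (G : SimpleGraph V) (p : ℝ) (l : ℕ), 0 ≤ p →
  p ≤ 1 → ∑ H ∈ univ.filter (fun H : SimpleGraph V => ∃ u v, u ≠ v ∧ (dset H u v).card < l),
    wt G p H ≤ (Fintype.card V : ℝ) ^ 2 * 2 ^ l * (1 - p * (1 - p)) ^ (Fintype.card V - 2)

/-- PFX (from UNB, CNK, MOD). PROOF. `p = m / N`. All `H` with `df G H = m` have the weight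
`ω = p^m (1 - p)^(N - m)`, and `1 ≤ (N + 1) * (N.choose m) * ω` (MOD divided by `N^N`), in
particular `ω > 0`. So `#bad * ω ≤ R` (UNB, all weights are nonnegative) gives
`#bad ≤ R / ω ≤ R * (N + 1) * N.choose m`. -/
def T_PFX : Prop := ∀ (V : Type) [Fintype V] (G : SimpleGraph V) (m l : ℕ),
  1 ≤ (Fintype.card V).choose 2 → m ≤ (Fintype.card V).choose 2 →
  ((univ.filter (fun H : SimpleGraph V => df G H = m ∧
    ∃ u v, u ≠ v ∧ (dset H u v).card < l)).card : ℝ) ≤
    (((Fintype.card V).choose 2 : ℕ) + 1) * ((Fintype.card V : ℝ) ^ 2 * 2 ^ l *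
      (1 - (m : ℝ) / ((Fintype.card V).choose 2 : ℕ) *
        (1 - (m : ℝ) / ((Fintype.card V).choose 2 : ℕ))) ^ (Fintype.card V - 2)) *
    (univ.filter (fun H : SimpleGraph V => df G H = m)).card

/-- FLP (from PFX, NRV.T_CRT). PROOF. `C1` from CRT, `C = 2 C1 + 12`, `L = log_2 n ≥ 1`,
`l = ⌈C1 L⌉₊ ≤ C1 L + 1`. By CRT with `Y = ∅` a non-reconstructible `H` has `u ≠ v` with
`|dset H u v| < C1 L ≤ l`. PFX: `p (1 - p) = m (N - m) / N^2 ≥ C n L / (2 N) = C L / (n - 1)`
(the smaller of `m`, `N - m` is at least `C n L`, the larger at least `N / 2`), so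
`(1 - p (1 - p))^(n - 2) ≤ exp (- C L (n - 2) / (n - 1)) ≤ exp (- C L / 2) ≤ 2^(- C L / 2) =
n^(- C / 2)`; `2^l ≤ 2 n^C1`, `N + 1 ≤ n^2`, `2 ≤ n`: the factor is at most
`n^2 * n^2 * n * n^C1 * n^(- C / 2) = n^(5 + C1 - C / 2) = n^(-1)`. -/
def T_FLP : Prop := ∃ C : ℝ, 0 < C ∧ ∀ (V : Type) [Fintype V] (G : SimpleGraph V) (m : ℕ),
  3 ≤ Fintype.card V →
  C * Fintype.card V * Real.logb 2 (Fintype.card V) ≤ m →
  C * Fintype.card V * Real.logb 2 (Fintype.card V) ≤ ((Fintype.card V).choose 2 : ℕ) - (m : ℝ) →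
  (Fintype.card V : ℝ) *
    (univ.filter (fun H : SimpleGraph V => df G H = m ∧ ¬ HER47.Rec H)).card ≤
    (univ.filter (fun H : SimpleGraph V => df G H = m)).card

end Pool.Agent.NRY
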